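import Mathlib
import Pool.Agent.R15.DegSqD

set_option autoImplicit false

/-!
# The degree-square Turan number of the strong tournament on four vertices

We determine `ex₂⁺(m, R₄)` for every `m`.

Upper bound. By symmetrization (replace one of two non-adjacent vertices by a copy of the other)
an extremal digraph has the property that non-adjacent vertices have the same in-neighbours and the
same out-degree. So non-adjacency is an equivalence relation, and the sum of squares is that of a
weighted semicomplete `R₄`-free digraph. The strong components of the latter have at most three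
vertices, so it is an ordered chain of blocks, each block being complete multipartite with at most
three parts. The optimum over such chains is found by induction.
-/

namespace Pool.Agent.Results.MP_be36ad_co.DegreeSquareR4

open Classical in
section

/-- The digraph with arc relation `D` contains the digraph on `Fin k` with arc relation `F` as a
subdigraph, not necessarily induced. -/
def Contains {k : ℕ} (F : Fin k → Fin k → Prop) {V : Type} (D : V → V → Prop) : Prop :=
  ∃ f : Fin k → V, Function.Injective f ∧ ∀ i j, F i j → D (f i) (f j)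

/-- The out-degree of `v` in the digraph with arc relation `D`. -/
noncomputable def outDegree {V : Type} (D : V → V → Prop) (v : V) : ℕ :=
  Nat.card {w : V // D v w}

/-- The tournament `R₄` on the vertices `0, 1, 2, 3`, with arcs `01, 12, 23, 30, 02, 13`. -/
def R4 (i j : Fin 4) : Prop :=
  (i, j) ∈ ({(0, 1), (1, 2), (2, 3), (3, 0), (0, 2), (1, 3)} : Finset (Fin 4 × Fin 4))

/-- The values of the sum of the squares of the out-degrees over all loopless digraphs on `m`
vertices that do not contain `F`. -/
def values {k : ℕ} (F : Fin k → Fin k → Prop) (m : ℕ) : Set ℕ :=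
  {s | ∃ D : Fin m → Fin m → Prop, (∀ v, ¬ D v v) ∧ ¬ Contains F D ∧
    s = ∑ v, outDegree D v ^ 2}

end

open Classical Pool.Agent.R15.DegSq

theorem contains_of_pattern {V : Type} {D : V → V → Prop} (hl : ∀ v, ¬ D v v)
    (h : ¬ Contains R4 D) : NoR4 D := by
  intro a b c d h1 h2 h3 h4 h5 h6
  apply h
  have ne : ∀ x y, D x y → x ≠ y := fun x y hxy e => hl y (e ▸ hxy)
  have n1 := ne _ _ h1
  have n2 := ne _ _ h2
  have n3 := ne _ _ h3
  have n4 := ne _ _ h4
  have n5 := ne _ _ h5
  have n6 := ne _ _ h6
  refine ⟨![a, b, c, d], ?_, ?_⟩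
  · intro i j hij
    fin_cases i <;> fin_cases j <;> simp_all
  · intro i j hij
    unfold R4 at hij
    simp only [Finset.mem_insert, Finset.mem_singleton, Prod.mk.injEq] at hij
    rcases hij with ⟨rfl, rfl⟩ | ⟨rfl, rfl⟩ | ⟨rfl, rfl⟩ | ⟨rfl, rfl⟩ | ⟨rfl, rfl⟩ | ⟨rfl, rfl⟩
    · exact h1
    · exact h2
    · exact h3
    · exact h4
    · exact h5
    · exact h6

theorem outDegree_eq {V : Type} [Fintype V] (D : V → V → Prop) (v : V) :
    outDegree D v = outD D v := by
  unfold outDegree outD
  rw [Nat.card_eq_fintype_card, Fintype.card_subtype]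

theorem upper (m s : ℕ) (hs : s ∈ values R4 m) : 9 * s + (m % 3) * (3 * m + 1) ≤ 4 * m ^ 3 := by
  obtain ⟨D, hl, hF, rfl⟩ := hs
  have h := bound hl (contains_of_pattern hl hF)
  rw [Fintype.card_fin] at h
  have e : ∑ v, outDegree D v ^ 2 = obj D := by
    unfold obj
    apply Finset.sum_congr rfl
    intro v _
    rw [outDegree_eq]
  rw [e]
  exact h

/-- the extremal digraphs: three parts of sizes `n 0, n 1, n 2` and `t` sinks -/
def ext (n : Fin 3 → ℕ) (t : ℕ) :
    ((Σ i : Fin 3, Fin (n i)) ⊕ Fin t) → ((Σ i : Fin 3, Fin (n i)) ⊕ Fin t) → Prop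
  | Sum.inl a, Sum.inl b => a.1 ≠ b.1
  | Sum.inl _, Sum.inr _ => True
  | Sum.inr _, _ => False

theorem ext_deg (n : Fin 3 → ℕ) (t : ℕ) (i : Fin 3) (a : Fin (n i)) :
    outDegree (ext n t) (Sum.inl ⟨i, a⟩) = (∑ j, if i ≠ j then n j else 0) + t := by
  unfold outDegree
  rw [Nat.card_eq_fintype_card, Fintype.card_subtype, Finset.card_filter, Fintype.sum_sum_type,
    Fintype.sum_sigma]
  congr 1
  · apply Finset.sum_congr rfl
    intro j _
    by_cases h : i ≠ j
    · simp [ext, h]
    · simp only [ne_eq, not_not] at h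
      subst h
      simp [ext]
  · simp [ext]

theorem ext_deg_sink (n : Fin 3 → ℕ) (t : ℕ) (a : Fin t) :
    outDegree (ext n t) (Sum.inr a) = 0 := by
  unfold outDegree
  rw [Nat.card_eq_fintype_card, Fintype.card_subtype, Finset.card_filter]
  simp [ext]

theorem ext_free (n : Fin 3 → ℕ) (t : ℕ) : ¬ Contains R4 (ext n t) := by
  rintro ⟨f, _, hf⟩
  have h1 := hf 0 1 (by unfold R4; decide)
  have h2 := hf 1 2 (by unfold R4; decide)
  have h3 := hf 2 3 (by unfold R4; decide)
  have h4 := hf 3 0 (by unfold R4; decide)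
  have h5 := hf 0 2 (by unfold R4; decide)
  have h6 := hf 1 3 (by unfold R4; decide)
  generalize f 0 = a at *
  generalize f 1 = b at *
  generalize f 2 = c at *
  generalize f 3 = d at *
  rcases a with ⟨i, a⟩ | a
  swap
  · exact h1
  rcases b with ⟨j, b⟩ | b
  swap
  · exact h2
  rcases c with ⟨k, c⟩ | c
  swap
  · exact h3
  rcases d with ⟨l, d⟩ | d
  swap
  · exact h4
  change i ≠ j at h1
  change j ≠ k at h2
  change k ≠ l at h3
  change l ≠ i at h4
  change i ≠ k at h5
  change j ≠ l at h6
  have key : ∀ i j k l : Fin 3, i ≠ j → j ≠ k → k ≠ l → l ≠ i → i ≠ k → j ≠ l → False := by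
    decide
  exact key i j k l h1 h2 h3 h4 h5 h6

theorem lower (n : Fin 3 → ℕ) (t m : ℕ) (hm : n 0 + n 1 + n 2 + t = m) :
    n 0 * (n 1 + n 2 + t) ^ 2 + n 1 * (n 0 + n 2 + t) ^ 2 + n 2 * (n 0 + n 1 + t) ^ 2
      ∈ values R4 m := by
  have hc : Fintype.card ((Σ i : Fin 3, Fin (n i)) ⊕ Fin t) = m := by
    rw [Fintype.card_sum, Fintype.card_sigma, Fin.sum_univ_three]
    simp only [Fintype.card_fin]
    exact hm
  let e : Fin m ≃ ((Σ i : Fin 3, Fin (n i)) ⊕ Fin t) := (Fintype.equivFinOfCardEq hc).symm
  refine ⟨fun a b => ext n t (e a) (e b), ?_, ?_, ?_⟩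
  · intro v
    rcases h : e v with ⟨i, a⟩ | a
    · simp [ext, h]
    · simp [ext, h]
  · rintro ⟨f, hf, hf'⟩
    exact ext_free n t ⟨fun i => e (f i), e.injective.comp hf, hf'⟩
  · have h1 : ∀ v, outDegree (fun a b => ext n t (e a) (e b)) v = outDegree (ext n t) (e v) := by
      intro v
      unfold outDegree
      exact Nat.card_congr (e.subtypeEquiv (fun w => Iff.rfl))
    have h2 : ∑ v, outDegree (fun a b => ext n t (e a) (e b)) v ^ 2
        = ∑ w, outDegree (ext n t) w ^ 2 := by
      rw [← Equiv.sum_comp e]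
      apply Finset.sum_congr rfl
      intro v _
      rw [h1]
    rw [h2, Fintype.sum_sum_type, Fintype.sum_sigma]
    simp only [ext_deg, ext_deg_sink]
    simp [Fin.sum_univ_three]

/-- **Determination of `ex₂⁺(m, R₄)` for every `m`.** -/
theorem result (q : ℕ) :
    IsGreatest (values R4 (3 * q)) (12 * q ^ 3) ∧
    IsGreatest (values R4 (3 * q + 1)) (12 * q ^ 3 + 12 * q ^ 2 + 3 * q) ∧
    IsGreatest (values R4 (3 * q + 2)) (12 * q ^ 3 + 24 * q ^ 2 + 14 * q + 2) := by
  refine ⟨⟨?_, ?_⟩, ⟨?_, ?_⟩, ⟨?_, ?_⟩⟩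
  · have h := lower ![q, q, q] 0 (3 * q) (by simp; ring)
    simp only [Matrix.cons_val_zero, Matrix.cons_val_one, Matrix.cons_val] at h
    convert h using 1
    ring
  · intro s hs
    have h := upper _ _ hs
    have e : 3 * q % 3 = 0 := by omega
    rw [e] at h
    nlinarith [h]
  · have h := lower ![q, q, q] 1 (3 * q + 1) (by simp; ring)
    simp only [Matrix.cons_val_zero, Matrix.cons_val_one, Matrix.cons_val] at h
    convert h using 1
    ring
  · intro s hs
    have h := upper _ _ hs
    have e : (3 * q + 1) % 3 = 1 := by omega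
    rw [e] at h
    nlinarith [h]
  · have h := lower ![q, q + 1, q + 1] 0 (3 * q + 2) (by simp; ring)
    simp only [Matrix.cons_val_zero, Matrix.cons_val_one, Matrix.cons_val] at h
    convert h using 1
    ring
  · intro s hs
    have h := upper _ _ hs
    have e : (3 * q + 2) % 3 = 2 := by omega
    rw [e] at h
    nlinarith [h]

end Pool.Agent.Results.MP_be36ad_co.DegreeSquareR4
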